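import Mathlib
import Pool.Agent.TH876.KR.Fin

set_option autoImplicit false
set_option linter.all false

/-! # UNI-4 (helper557): the lemma of Gauss in terms of local heights -/

namespace Pool.Agent.Y447.U557

open NumberField IsDedekindDomain Finset Polynomial
open Pool.Agent.H691R3 Pool.Agent.TH876.Loc
open Pool.Agent.TH876.KR (form localHeight)

variable {K : Type} [Field K] [NumberField K]

theorem fv_isNA (v : Pr K) : IsNonarchimedean (fv v) := fun a b => fv_na v a b

theorem sup_eq_gaussNorm (v : Pr K) (G : K[X]) (N : ℕ) (hN : G.natDegree ≤ N) :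
    (⨆ k : Fin (N + 1), fv v (G.coeff k)) = G.gaussNorm (fv v) 1 := by
  apply le_antisymm
  · apply ciSup_le
    intro k
    have h := G.le_gaussNorm (fv v) zero_le_one (k : ℕ)
    rwa [one_pow, mul_one] at h
  · obtain ⟨i, hi⟩ := G.exists_eq_gaussNorm (fv v) 1
    rw [hi, one_pow, mul_one]
    have hbd : BddAbove (Set.range fun k : Fin (N + 1) => fv v (G.coeff k)) :=
      (Set.finite_range _).bddAbove
    by_cases h : i ≤ N
    · exact le_ciSup hbd ⟨i, by omega⟩
    · rw [Polynomial.coeff_eq_zero_of_natDegree_lt (by omega), map_zero]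
      exact ((fv v).nonneg _).trans (le_ciSup hbd 0)

theorem gaussNorm_X_sub_C (v : Pr K) (r : K) :
    (X - C r : K[X]).gaussNorm (fv v) 1 = max (fv v r) 1 := by
  apply le_antisymm
  · obtain ⟨i, hi⟩ := (X - C r : K[X]).exists_eq_gaussNorm (fv v) 1
    rw [hi, one_pow, mul_one, coeff_sub, coeff_X, coeff_C]
    rcases Nat.lt_or_ge i 1 with h | h
    · obtain rfl : i = 0 := by omega
      simp
    · rcases eq_or_ne i 1 with rfl | h1
      · simp
      · rw [if_neg (Ne.symm h1), if_neg (by omega)]
        simp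
  · apply max_le
    · have h := (X - C r : K[X]).le_gaussNorm (fv v) zero_le_one 0
      simpa using h
    · have h := (X - C r : K[X]).le_gaussNorm (fv v) zero_le_one 1
      simpa [coeff_X, coeff_C] using h

theorem gaussNorm_prod (v : Pr K) (s : Multiset K) :
    ((s.map fun r => X - C r).prod : K[X]).gaussNorm (fv v) 1 =
      (s.map fun r => max (fv v r) 1).prod := by
  induction s using Multiset.induction_on with
  | empty =>
    rw [Multiset.map_zero, Multiset.prod_zero, Multiset.map_zero, Multiset.prod_zero, ← C_1,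
      gaussNorm_C, map_one]
  | cons a s ih =>
    rw [Multiset.map_cons, Multiset.prod_cons, Multiset.map_cons, Multiset.prod_cons,
      Polynomial.gaussNorm_mul (fv_isNA v) one_pos, ih, gaussNorm_X_sub_C]

theorem localHeight_pt (v : Pr K) (r t : K) :
    localHeight v ![r, 1] ![t, 1] =
      Real.log (max (fv v r) 1 * max (fv v t) 1 / fv v (t - r)) := by
  unfold localHeight form
  have h1 : FinitePlace.mk v (1 : K) = 1 := map_one _
  have h2 : FinitePlace.mk v (r - t) = fv v (t - r) := by
    rw [← fv_apply, ← (fv v).map_neg (r - t), neg_sub]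
  simp only [Matrix.cons_val_zero, Matrix.cons_val_one, mul_one, one_mul]
  rw [h1, h2]
  rfl

theorem localHeight_inf (v : Pr K) (t : K) :
    localHeight v ![1, 0] ![t, 1] = Real.log (max (fv v t) 1) := by
  unfold localHeight form
  have h1 : FinitePlace.mk v (1 : K) = 1 := map_one _
  have h0 : FinitePlace.mk v (0 : K) = 0 := map_zero _
  simp only [Matrix.cons_val_zero, Matrix.cons_val_one, mul_one, zero_mul, sub_zero]
  rw [h1, h0, max_eq_left zero_le_one, one_mul, div_one]
  rfl

theorem sum_roots (v : Pr K) (t : K) (s : Multiset K) (hs : ∀ r ∈ s, t - r ≠ 0) :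
    (s.map fun r => localHeight v ![r, 1] ![t, 1]).sum =
      Real.log ((s.map fun r => max (fv v r) 1).prod) + s.card * Real.log (max (fv v t) 1) -
        Real.log ((s.map fun r => fv v (t - r)).prod) := by
  induction s using Multiset.induction_on with
  | empty => simp
  | cons a s ih =>
    have hs' : ∀ r ∈ s, t - r ≠ 0 := fun r hr => hs r (Multiset.mem_cons_of_mem hr)
    have ha : t - a ≠ 0 := hs a (Multiset.mem_cons_self a s)
    have e1 : ((s.map fun r => max (fv v r) 1).prod) ≠ 0 := by
      rw [Ne, Multiset.prod_eq_zero_iff]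
      intro h
      obtain ⟨r, _, hr⟩ := Multiset.mem_map.1 h
      have : (1 : ℝ) ≤ max (fv v r) 1 := le_max_right _ _
      linarith
    have e2 : ((s.map fun r => fv v (t - r)).prod) ≠ 0 := by
      rw [Ne, Multiset.prod_eq_zero_iff]
      intro h
      obtain ⟨r, hr1, hr⟩ := Multiset.mem_map.1 h
      exact hs' r hr1 ((fv v).eq_zero.1 hr)
    have e3 : max (fv v a) 1 ≠ 0 := by
      have : (1 : ℝ) ≤ max (fv v a) 1 := le_max_right _ _
      linarith
    have e4 : max (fv v t) 1 ≠ 0 := by
      have : (1 : ℝ) ≤ max (fv v t) 1 := le_max_right _ _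
      linarith
    have e5 : fv v (t - a) ≠ 0 := fun h => ha ((fv v).eq_zero.1 h)
    rw [Multiset.map_cons, Multiset.sum_cons, ih hs', localHeight_pt, Multiset.map_cons,
      Multiset.prod_cons, Multiset.map_cons, Multiset.prod_cons, Multiset.card_cons,
      Real.log_div (mul_ne_zero e3 e4) e5, Real.log_mul e3 e4, Real.log_mul e3 e1,
      Real.log_mul e5 e2]
    push_cast
    ring

/-- the statement `S_GAUSS K` of `Pool.Agent.Y557.U.Stm`, unfolded -/
theorem gauss_holds (K : Type) [Field K] [NumberField K] :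
  ∀ (G : K[X]) (N : ℕ), G ≠ 0 → G.Splits → G.natDegree ≤ N → ∀ (v : Pr K) (t : K),
    G.eval t ≠ 0 →
    Real.log ((⨆ k : Fin (N + 1), fv v (G.coeff k)) * max (fv v t) 1 ^ N / fv v (G.eval t)) =
      (G.roots.map fun r => localHeight v ![r, 1] ![t, 1]).sum +
        ((N - G.natDegree : ℕ) : ℝ) * localHeight v ![1, 0] ![t, 1] := by
  intro G N hG hS hN v t ht
  have hfac := hS.eq_prod_roots
  have hlc : G.leadingCoeff ≠ 0 := leadingCoeff_ne_zero.2 hG
  have hlc' : fv v G.leadingCoeff ≠ 0 := fun h => hlc ((fv v).eq_zero.1 h)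
  have hcard : G.natDegree = G.roots.card := hS.natDegree_eq_card_roots
  have hroots : ∀ r ∈ G.roots, t - r ≠ 0 := by
    intro r hr h
    apply ht
    have h1 : t = r := sub_eq_zero.1 h
    rw [h1]
    exact (Polynomial.mem_roots hG).1 hr
  have hgn : (⨆ k : Fin (N + 1), fv v (G.coeff k)) =
      fv v G.leadingCoeff * (G.roots.map fun r => max (fv v r) 1).prod := by
    rw [sup_eq_gaussNorm v G N hN]
    conv_lhs => rw [hfac]
    rw [Polynomial.gaussNorm_mul (fv_isNA v) one_pos, gaussNorm_C, gaussNorm_prod]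
  have hev : fv v (G.eval t) =
      fv v G.leadingCoeff * (G.roots.map fun r => fv v (t - r)).prod := by
    conv_lhs => rw [hfac]
    rw [eval_mul, eval_C, map_mul, eval_multiset_prod, Multiset.map_map, map_multiset_prod,
      Multiset.map_map]
    congr 3
    ext1 r
    simp
  have e1 : ((G.roots.map fun r => max (fv v r) 1).prod) ≠ 0 := by
    rw [Ne, Multiset.prod_eq_zero_iff]
    intro h
    obtain ⟨r, _, hr⟩ := Multiset.mem_map.1 h
    have : (1 : ℝ) ≤ max (fv v r) 1 := le_max_right _ _
    linarith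
  have e2 : ((G.roots.map fun r => fv v (t - r)).prod) ≠ 0 := by
    rw [Ne, Multiset.prod_eq_zero_iff]
    intro h
    obtain ⟨r, hr1, hr⟩ := Multiset.mem_map.1 h
    exact hroots r hr1 ((fv v).eq_zero.1 hr)
  have e4 : max (fv v t) 1 ≠ 0 := by
    have : (1 : ℝ) ≤ max (fv v t) 1 := le_max_right _ _
    linarith
  rw [sum_roots v t _ hroots, localHeight_inf, hgn, hev, Real.log_div
    (mul_ne_zero (mul_ne_zero hlc' e1) (pow_ne_zero _ e4)) (mul_ne_zero hlc' e2),
    Real.log_mul (mul_ne_zero hlc' e1) (pow_ne_zero _ e4), Real.log_mul hlc' e1,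
    Real.log_mul hlc' e2, Real.log_pow, ← hcard, Nat.cast_sub hN]
  ring

end Pool.Agent.Y447.U557
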